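import Pool.Agent.H97R2.LPB.Props

open Polynomial Filter Topology MeasureTheory Pool.Agent.H337R2 Pool.Agent.LP

namespace Pool.Agent.LPB

namespace H313C3

theorem lnb (j : ℕ) (hj : 1 ≤ j) (hj2 : j < 2 ^ 20) (a : ℤ) (h : lnA j = a) :
    (a : ℝ) / 10 ^ 12 - 1 / 10 ^ 7 ≤ Real.log j ∧ Real.log j ≤ (a : ℝ) / 10 ^ 12 + 1 / 10 ^ 7 := by
  have h1 := abs_le.1 (lnA_spec j hj hj2)
  rw [h] at h1
  have h2 : ((lnE : ℤ) : ℝ) = 20000 := by norm_num
  rw [h2] at h1
  constructor
  · rw [div_sub' (by norm_num), div_le_iff₀ (by norm_num)]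
    norm_num at h1 ⊢
    linarith [h1.1, h1.2]
  · rw [div_add' _ _ _ (by norm_num), le_div_iff₀ (by norm_num)]
    norm_num at h1 ⊢
    linarith [h1.1, h1.2]

theorem at_le {x : ℝ} (hx : 0 ≤ x) : Real.arctan x ≤ x := by
  have h := Real.le_tan (Real.arctan_nonneg.mpr hx) (Real.arctan_lt_pi_div_two x)
  rwa [Real.tan_arctan] at h

theorem Ux_eq (v : ℝ) : Ux v = 32 / 55 * (Psi (v + 15 / 16) - Psi (v - 15 / 16)) +
    16 / 33 * (Psi (v + 3) - Psi (v - 3)) := by
  unfold Ux; ring

theorem hasDerivAt_Ux {v : ℝ} (hv : 3 < v) : HasDerivAt Ux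
    (32 / 55 * (Real.log (v + 15 / 16) - Real.log (v - 15 / 16)) +
      16 / 33 * (Real.log (v + 3) - Real.log (v - 3))) v := by
  have h1 : HasDerivAt (fun t : ℝ => Psi (t + 15 / 16)) (Real.log (v + 15 / 16)) v := by
    have hne : v + 15 / 16 ≠ 0 := by linarith
    exact (hasDerivAt_Psi hne).comp_add_const v (15 / 16)
  have h2 : HasDerivAt (fun t : ℝ => Psi (t - 15 / 16)) (Real.log (v - 15 / 16)) v := by
    have hne : v - 15 / 16 ≠ 0 := by linarith
    exact (hasDerivAt_Psi hne).comp_sub_const v (15 / 16)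
  have h3 : HasDerivAt (fun t : ℝ => Psi (t + 3)) (Real.log (v + 3)) v := by
    have hne : v + 3 ≠ 0 := by linarith
    exact (hasDerivAt_Psi hne).comp_add_const v 3
  have h4 : HasDerivAt (fun t : ℝ => Psi (t - 3)) (Real.log (v - 3)) v := by
    have hne : v - 3 ≠ 0 := by linarith
    exact (hasDerivAt_Psi hne).comp_sub_const v 3
  have h5 := ((h1.sub h2).const_mul (32 / 55 : ℝ)).add ((h3.sub h4).const_mul (16 / 33 : ℝ))
  refine h5.congr_of_eventuallyEq ?_
  filter_upwards with t
  rw [Ux_eq]; rfl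

/-- the function of the certificate -/
noncomputable def Fn (v : ℝ) : ℝ := (2 * Pc 1 v - Pc 5 v - Real.pi * v) + 2 * Ux v

theorem Fn_deriv (h : S_shape) {v : ℝ} (hv : 387 / 100 ≤ v) : ∃ d : ℝ, d ≤ 0 ∧ HasDerivAt Fn d v := by
  have hd := (h.1 v (by linarith)).add ((hasDerivAt_Ux (v := v) (by linarith)).const_mul (2 : ℝ))
  refine ⟨_, ?_, hd⟩
  have hv0 : 0 < v := by linarith
  have a1 : Real.arctan (1 / v) ≤ Real.arctan (5 / v) :=
    Real.arctan_strictMono.monotone (div_le_div_of_nonneg_right (by norm_num) hv0.le)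
  have a2 : Real.arctan (1 / v) ≤ 1 / v := at_le (by positivity)
  have a3 : 1 / v ≤ 100 / 387 := by
    rw [div_le_div_iff₀ hv0 (by norm_num)]; linarith
  have a4 := Real.pi_gt_d2
  -- log ((v+15/16)/(v-15/16)) ≤ 2/3
  have b1 : Real.log (v + 15 / 16) - Real.log (v - 15 / 16) ≤ 2 / 3 := by
    rw [← Real.log_div (by linarith) (by linarith)]
    have hp : 0 < v - 15 / 16 := by linarith
    have e : (v + 15 / 16) / (v - 15 / 16) ≤ 5 / 3 := by
      rw [div_le_div_iff₀ hp (by norm_num)]; linarith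
    have := Real.log_le_sub_one_of_pos (x := (v + 15 / 16) / (v - 15 / 16)) (by positivity)
    linarith
  have b2 : Real.log (v + 3) - Real.log (v - 3) ≤ 3 * 0.6931471808 := by
    rw [← Real.log_div (by linarith) (by linarith)]
    have hp : 0 < v - 3 := by linarith
    have e : (v + 3) / (v - 3) ≤ 2 ^ 3 := by
      rw [div_le_iff₀ hp]; linarith
    have e2 : Real.log ((v + 3) / (v - 3)) ≤ Real.log (2 ^ 3) :=
      Real.log_le_log (by positivity) e
    rw [Real.log_pow] at e2
    have := Real.log_two_lt_d9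
    push_cast at e2
    linarith
  linarith

theorem Fn_anti (h : S_shape) {v : ℝ} (hv : 387 / 100 ≤ v) : Fn v ≤ Fn (387 / 100) := by
  have hanti : AntitoneOn Fn (Set.Ici (387 / 100)) := by
    apply antitoneOn_of_deriv_nonpos (convex_Ici _)
    · intro x hx
      obtain ⟨d, _, hd⟩ := Fn_deriv h (v := x) hx
      exact hd.continuousAt.continuousWithinAt
    · intro x hx
      rw [interior_Ici] at hx
      obtain ⟨d, _, hd⟩ := Fn_deriv h (v := x) (le_of_lt hx)
      exact hd.differentiableAt.differentiableWithinAt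
    · intro x hx
      rw [interior_Ici] at hx
      obtain ⟨d, hd0, hd⟩ := Fn_deriv h (v := x) (le_of_lt hx)
      rw [hd.deriv]; exact hd0
  exact hanti (Set.self_mem_Ici) hv hv

/-- arctan (500/387) ≥ π/4 + 0.12 -/
theorem atan_bd : Real.pi / 4 + 12 / 100 ≤ Real.arctan (5 / (387 / 100)) := by
  have h1 : Real.arctan 1 + Real.arctan (113 / 887) = Real.arctan ((1 + 113 / 887) / (1 - 1 * (113 / 887))) :=
    Real.arctan_add (by norm_num)
  have h2 : ((1 : ℝ) + 113 / 887) / (1 - 1 * (113 / 887)) = 5 / (387 / 100) := by norm_num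
  rw [h2, Real.arctan_one] at h1
  rw [← h1]
  have h3 : (12 / 100 : ℝ) ≤ Real.arctan (113 / 887) := by
    rw [← Real.arctan_tan (x := 12 / 100) (by linarith [Real.pi_gt_three]) (by linarith [Real.pi_gt_three])]
    apply Real.arctan_strictMono.monotone
    rw [Real.tan_eq_sin_div_cos]
    have s1 : Real.sin (12 / 100) ≤ 12 / 100 := Real.sin_le (by norm_num)
    have c1 : 1 - (12 / 100 : ℝ) ^ 2 / 2 ≤ Real.cos (12 / 100) := Real.one_sub_sq_div_two_le_cos
    have c0 : 0 < Real.cos (12 / 100) := lt_of_lt_of_le (by norm_num) c1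
    rw [div_le_iff₀ c0]
    nlinarith
  linarith

theorem Fn_val : Fn (387 / 100) ≤ -(665 / 100) := by
  have l1 := lnb 1923 (by norm_num) (by norm_num) _ (show lnA 1923 = 7561641745589 by decide +kernel)
  have l2 := lnb 400 (by norm_num) (by norm_num) _ (show lnA 400 = 5991464547126 by decide +kernel)
  have l3 := lnb 1173 (by norm_num) (by norm_num) _ (show lnA 1173 = 7067319848653 by decide +kernel)
  have l4 := lnb 687 (by norm_num) (by norm_num) _ (show lnA 687 = 6532334292104 by decide +kernel)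
  have l5 := lnb 100 (by norm_num) (by norm_num) _ (show lnA 100 = 4605170186006 by decide +kernel)
  have l6 := lnb 87 (by norm_num) (by norm_num) _ (show lnA 87 = 4465908118465 by decide +kernel)
  have l7 := lnb 399 (by norm_num) (by norm_num) _ (show lnA 399 = 5988961416910 by decide +kernel)
  have l8 := lnb 10 (by norm_num) (by norm_num) _ (show lnA 10 = 2302585092988 by decide +kernel)
  push_cast at l1 l2 l3 l4 l5 l6 l7 l8
  have p1 : Psi (387 / 100 + 15 / 16) ≤ 2742 / 1000 := by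
    unfold Psi
    rw [show (387 / 100 + 15 / 16 : ℝ) = 1923 / 400 by norm_num, Real.log_div (by norm_num) (by norm_num)]
    nlinarith [l1.2, l2.1]
  have p2 : 2223 / 10000 ≤ Psi (387 / 100 - 15 / 16) := by
    unfold Psi
    rw [show (387 / 100 - 15 / 16 : ℝ) = 1173 / 400 by norm_num, Real.log_div (by norm_num) (by norm_num)]
    nlinarith [l3.1, l2.2]
  have p3 : Psi (387 / 100 + 3) ≤ 6370 / 1000 := by
    unfold Psi
    rw [show (387 / 100 + 3 : ℝ) = 687 / 100 by norm_num, Real.log_div (by norm_num) (by norm_num)]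
    nlinarith [l4.2, l5.1]
  have p4 : -(9912 / 10000) ≤ Psi (387 / 100 - 3) := by
    unfold Psi
    rw [show (387 / 100 - 3 : ℝ) = 87 / 100 by norm_num, Real.log_div (by norm_num) (by norm_num)]
    nlinarith [l6.1, l5.2]
  have u1 : Ux (387 / 100) ≤ 505 / 100 := by
    rw [Ux_eq]; linarith
  have q1 : Real.log (1 + (387 / 100) ^ 2) ≤ 4 * 0.6931471808 := by
    have : Real.log (1 + (387 / 100 : ℝ) ^ 2) ≤ Real.log (2 ^ 4) :=
      Real.log_le_log (by norm_num) (by norm_num)
    rw [Real.log_pow] at this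
    push_cast at this
    linarith [Real.log_two_lt_d9]
  have q2 : 36863 / 10000 ≤ Real.log (25 + (387 / 100) ^ 2) := by
    have h1 : Real.log (399 / 10) ≤ Real.log (25 + (387 / 100 : ℝ) ^ 2) :=
      Real.log_le_log (by norm_num) (by norm_num)
    rw [Real.log_div (by norm_num) (by norm_num)] at h1
    linarith [l7.1, l8.2]
  have q3 : Real.arctan (1 / (387 / 100)) ≤ 1 / (387 / 100) := at_le (by norm_num)
  have q4 := atan_bd
  have q5 := Real.pi_gt_d2
  unfold Fn Pc
  norm_num at q1 q2 q3 q4 ⊢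
  nlinarith

end H313C3

open H313C3

theorem V1_cert3 (h : S_shape) : S_cert3 := by
  intro v h1 h2
  have h3 := Fn_anti h (v := v) h1
  have h4 := Fn_val
  unfold Fn at h3
  unfold Phi
  rw [abs_of_nonneg (by linarith)]
  unfold Fn at h4
  linarith

end Pool.Agent.LPB
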